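import Mathlib

/-! JOB LS-COR of helper283, abstract part: corestriction of cocycles for a subgroup of index two. -/

set_option autoImplicit false

namespace Pool.Agent.Q150.LS

variable {Γ : Type} [Group Γ] {R : Type} [CommRing R]

/-- the corestriction -/
def Kc (ρ : Γ → R) (s : Γ) (f : Γ → R) (g : Γ) : R :=
  f g + ρ s * f (s⁻¹ * g * s) + ρ s * f (s⁻¹ * g) + f (g * s)

/-- the setting: `H` is of index two in `G`, `ρ` is multiplicative on `G` -/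
structure Sett (G H : Subgroup Γ) (ρ : Γ → R) : Prop where
  le : H ≤ G
  idx : ∀ a ∈ G, ∀ b ∈ G, (a * b ∈ H ↔ (a ∈ H ↔ b ∈ H))
  one : ρ 1 = 1
  mul : ∀ a ∈ G, ∀ b ∈ G, ρ (a * b) = ρ a * ρ b

/-- a cocycle on `H`, extended by zero -/
structure Cz (H : Subgroup Γ) (ρ f : Γ → R) : Prop where
  off : ∀ g, g ∉ H → f g = 0
  coc : ∀ a ∈ H, ∀ b ∈ H, f (a * b) = f a + ρ a * f b

variable {G H : Subgroup Γ} {ρ f : Γ → R}

theorem Sett.mem1 (h : Sett G H ρ) {s g : Γ} (hs : s ∈ G) (hs' : s ∉ H) (hg : g ∈ G) :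
    g * s ∈ H ↔ g ∉ H := by
  rw [h.idx g hg s hs]
  tauto

theorem Sett.mem2 (h : Sett G H ρ) {s g : Γ} (hs : s ∈ G) (hs' : s ∉ H) (hg : g ∈ G) :
    s⁻¹ * g ∈ H ↔ g ∉ H := by
  rw [h.idx _ (G.inv_mem hs) g hg, inv_mem_iff]
  tauto

theorem Sett.mem3 (h : Sett G H ρ) {s g : Γ} (hs : s ∈ G) (hs' : s ∉ H) (hg : g ∈ G) :
    s⁻¹ * g * s ∈ H ↔ g ∈ H := by
  rw [h.mem1 hs hs' (G.mul_mem (G.inv_mem hs) hg), h.mem2 hs hs' hg, not_not]

theorem Sett.inv1 (h : Sett G H ρ) {s : Γ} (hs : s ∈ G) : ρ s * ρ s⁻¹ = 1 := by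
  rw [← h.mul s hs _ (G.inv_mem hs), mul_inv_cancel, h.one]

theorem Kc_in (h : Sett G H ρ) (hf : Cz H ρ f) {s g : Γ} (hs : s ∈ G) (hs' : s ∉ H) (hg : g ∈ H) :
    Kc ρ s f g = f g + ρ s * f (s⁻¹ * g * s) := by
  have hG := h.le hg
  unfold Kc
  rw [hf.off (s⁻¹ * g) (fun h1 => (h.mem2 hs hs' hG).1 h1 hg), hf.off (g * s) (fun h1 => (h.mem1 hs hs' hG).1 h1 hg)]
  ring

theorem Kc_out (h : Sett G H ρ) (hf : Cz H ρ f) {s g : Γ} (hs : s ∈ G) (hs' : s ∉ H) (hG : g ∈ G)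
    (hg : g ∉ H) : Kc ρ s f g = ρ s * f (s⁻¹ * g) + f (g * s) := by
  unfold Kc
  rw [hf.off g hg, hf.off (s⁻¹ * g * s) (fun h1 => hg ((h.mem3 hs hs' hG).1 h1))]
  ring

/-- the corestriction of a cocycle is a cocycle -/
theorem Kc_coc (h : Sett G H ρ) (hf : Cz H ρ f) {s : Γ} (hs : s ∈ G) (hs' : s ∉ H) {a b : Γ}
    (ha : a ∈ G) (hb : b ∈ G) : Kc ρ s f (a * b) = Kc ρ s f a + ρ a * Kc ρ s f b := by
  have r1 := h.inv1 hs
  have hsi := G.inv_mem hs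
  by_cases haH : a ∈ H <;> by_cases hbH : b ∈ H
  · have hab : a * b ∈ H := (h.idx a ha b hb).2 (by tauto)
    have m1 := (h.mem3 hs hs' ha).2 haH
    have m2 := (h.mem3 hs hs' hb).2 hbH
    have e1 : s⁻¹ * (a * b) * s = (s⁻¹ * a * s) * (s⁻¹ * b * s) := by group
    have e2 : ρ (s⁻¹ * a * s) = ρ s⁻¹ * ρ a * ρ s := by
      rw [h.mul _ (G.mul_mem hsi ha) _ hs, h.mul _ hsi _ ha]
    rw [Kc_in h hf hs hs' hab, Kc_in h hf hs hs' haH, Kc_in h hf hs hs' hbH, e1,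
      hf.coc a haH b hbH, hf.coc _ m1 _ m2, e2]
    linear_combination (ρ s * ρ a * f (s⁻¹ * b * s)) * r1
  · have hab : a * b ∉ H := fun h1 => hbH (((h.idx a ha b hb).1 h1).1 haH)
    have m1 := (h.mem3 hs hs' ha).2 haH
    have m2 := (h.mem2 hs hs' hb).2 hbH
    have m3 := (h.mem1 hs hs' hb).2 hbH
    have e1 : s⁻¹ * (a * b) = (s⁻¹ * a * s) * (s⁻¹ * b) := by group
    have e3 : a * b * s = a * (b * s) := by group
    have e2 : ρ (s⁻¹ * a * s) = ρ s⁻¹ * ρ a * ρ s := by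
      rw [h.mul _ (G.mul_mem hsi ha) _ hs, h.mul _ hsi _ ha]
    rw [Kc_out h hf hs hs' (G.mul_mem ha hb) hab, Kc_in h hf hs hs' haH, Kc_out h hf hs hs' hb hbH, e1, e3,
      hf.coc _ m1 _ m2, hf.coc _ haH _ m3, e2]
    linear_combination (ρ s * ρ a * f (s⁻¹ * b)) * r1
  · have hab : a * b ∉ H := fun h1 => haH (((h.idx a ha b hb).1 h1).2 hbH)
    have m1 := (h.mem2 hs hs' ha).2 haH
    have m2 := (h.mem1 hs hs' ha).2 haH
    have m3 := (h.mem3 hs hs' hb).2 hbH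
    have e1 : s⁻¹ * (a * b) = (s⁻¹ * a) * b := by group
    have e3 : a * b * s = (a * s) * (s⁻¹ * b * s) := by group
    have e2 : ρ (s⁻¹ * a) = ρ s⁻¹ * ρ a := h.mul _ hsi _ ha
    have e4 : ρ (a * s) = ρ a * ρ s := h.mul _ ha _ hs
    rw [Kc_out h hf hs hs' (G.mul_mem ha hb) hab, Kc_out h hf hs hs' ha haH, Kc_in h hf hs hs' hbH, e1, e3,
      hf.coc _ m1 _ hbH, hf.coc _ m2 _ m3, e2, e4]
    linear_combination (ρ a * f b) * r1
  · have hab : a * b ∈ H := (h.idx a ha b hb).2 (by tauto)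
    have m1 := (h.mem1 hs hs' ha).2 haH
    have m2 := (h.mem2 hs hs' hb).2 hbH
    have m3 := (h.mem2 hs hs' ha).2 haH
    have m4 := (h.mem1 hs hs' hb).2 hbH
    have e1 : f (a * b) = f (a * s) + ρ (a * s) * f (s⁻¹ * b) := by
      rw [← hf.coc _ m1 _ m2]
      congr 1
      group
    have e3 : s⁻¹ * (a * b) * s = (s⁻¹ * a) * (b * s) := by group
    have e2 : ρ (s⁻¹ * a) = ρ s⁻¹ * ρ a := h.mul _ hsi _ ha
    have e4 : ρ (a * s) = ρ a * ρ s := h.mul _ ha _ hs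
    rw [Kc_in h hf hs hs' hab, Kc_out h hf hs hs' ha haH, Kc_out h hf hs hs' hb hbH, e1, e3,
      hf.coc _ m3 _ m4, e2, e4]
    linear_combination (ρ a * f (b * s)) * r1

/-- coboundaries on a subgroup `D` which contains `s` -/
theorem Kc_cob (h : Sett G H ρ) (hf : Cz H ρ f) {s : Γ} (hs : s ∈ G) (hs' : s ∉ H) (D : Subgroup Γ)
    (hsD : s ∈ D) (n b : R) (hb : ∀ g ∈ D, g ∈ H → n * f g = (ρ g - 1) * b) {g : Γ} (hgD : g ∈ D)
    (hgG : g ∈ G) : n * Kc ρ s f g = (ρ g - 1) * ((1 + ρ s) * b) := by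
  have r1 := h.inv1 hs
  have hsi := G.inv_mem hs
  have hsDi := D.inv_mem hsD
  by_cases hgH : g ∈ H
  · have m1 := (h.mem3 hs hs' hgG).2 hgH
    have e1 := hb g hgD hgH
    have e2 := hb _ (D.mul_mem (D.mul_mem hsDi hgD) hsD) m1
    have e3 : ρ (s⁻¹ * g * s) = ρ s⁻¹ * ρ g * ρ s := by
      rw [h.mul _ (G.mul_mem hsi hgG) _ hs, h.mul _ hsi _ hgG]
    rw [e3] at e2
    rw [Kc_in h hf hs hs' hgH]
    linear_combination e1 + ρ s * e2 + (ρ s * ρ g * b) * r1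
  · have m1 := (h.mem2 hs hs' hgG).2 hgH
    have m2 := (h.mem1 hs hs' hgG).2 hgH
    have e1 := hb _ (D.mul_mem hsDi hgD) m1
    have e2 := hb _ (D.mul_mem hgD hsD) m2
    have e3 : ρ (s⁻¹ * g) = ρ s⁻¹ * ρ g := h.mul _ hsi _ hgG
    have e4 : ρ (g * s) = ρ g * ρ s := h.mul _ hgG _ hs
    rw [e3] at e1
    rw [e4] at e2
    rw [Kc_out h hf hs hs' hgG hgH]
    linear_combination ρ s * e1 + e2 + (ρ g * b) * r1

/-- another choice of `s` -/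
theorem Kc_change (h : Sett G H ρ) (hf : Cz H ρ f) {s s' : Γ} (hs : s ∈ G) (hs' : s ∉ H) (ht : s' ∈ G)
    (ht' : s' ∉ H) {g : Γ} (hgG : g ∈ G) :
    Kc ρ s' f g = Kc ρ s f g + (ρ g - 1) * (ρ s * f (s⁻¹ * s')) := by
  have r1 := h.inv1 hs
  have hsi := G.inv_mem hs
  obtain ⟨t, ht0⟩ : ∃ t : Γ, t = s⁻¹ * s' := ⟨_, rfl⟩
  have e0 : s' = s * t := by
    rw [ht0]
    group
  have htH : t ∈ H := by
    rw [ht0]
    exact (h.mem2 hs hs' ht).2 ht'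
  have htG := h.le htH
  have htiH := H.inv_mem htH
  have htiG := h.le htiH
  have r2 := h.inv1 htG
  have f1 : f 1 = 0 := by
    have := hf.coc 1 H.one_mem 1 H.one_mem
    rw [mul_one, h.one] at this
    linear_combination (-1 : R) * this
  have f2 : f t + ρ t * f t⁻¹ = 0 := by
    rw [← hf.coc t htH _ htiH, mul_inv_cancel, f1]
  have ρt : ρ s' = ρ s * ρ t := by rw [e0, h.mul s hs t htG]
  rw [← ht0]
  by_cases hgH : g ∈ H
  · have m1 := (h.mem3 hs hs' hgG).2 hgH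
    have e1 : s'⁻¹ * g * s' = t⁻¹ * ((s⁻¹ * g * s) * t) := by
      rw [e0]
      group
    have e3 : ρ (s⁻¹ * g * s) = ρ s⁻¹ * ρ g * ρ s := by
      rw [h.mul _ (G.mul_mem hsi hgG) _ hs, h.mul _ hsi _ hgG]
    rw [Kc_in h hf ht ht' hgH, Kc_in h hf hs hs' hgH, e1, hf.coc _ htiH _ (H.mul_mem m1 htH),
      hf.coc _ m1 _ htH, e3, ρt]
    linear_combination ρ s * f2 + ρ s * (f (s⁻¹ * g * s) + ρ s⁻¹ * ρ g * ρ s * f t) * r2 +
      (ρ s * ρ g * f t) * r1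
  · have m1 := (h.mem2 hs hs' hgG).2 hgH
    have m2 := (h.mem1 hs hs' hgG).2 hgH
    have e1 : s'⁻¹ * g = t⁻¹ * (s⁻¹ * g) := by
      rw [e0]
      group
    have e2 : g * s' = (g * s) * t := by
      rw [e0]
      group
    have e4 : ρ (g * s) = ρ g * ρ s := h.mul _ hgG _ hs
    rw [Kc_out h hf ht ht' hgG hgH, Kc_out h hf hs hs' hgG hgH, e1, e2, hf.coc _ htiH _ m1,
      hf.coc _ m2 _ htH, e4, ρt]
    linear_combination ρ s * f2 + ρ s * f (s⁻¹ * g) * r2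

/-- the local condition -/
theorem Kc_loc (h : Sett G H ρ) (hf : Cz H ρ f) {s : Γ} (hs : s ∈ G) (hs' : s ∉ H) (D : Subgroup Γ)
    (n b b' : R) (hb : ∀ g ∈ D, g ∈ H → n * f g = (ρ g - 1) * b)
    (hb' : ∀ g ∈ D, g ∈ H → n * f (s⁻¹ * g * s) = (ρ g - 1) * b') :
    ∃ c : R, ∀ g ∈ D, g ∈ G → n * Kc ρ s f g = (ρ g - 1) * c := by
  by_cases hD : ∃ t ∈ D, t ∈ G ∧ t ∉ H
  · obtain ⟨t, htD, htG, htH⟩ := hD
    refine ⟨(1 + ρ t) * b - n * (ρ s * f (s⁻¹ * t)), fun g hgD hgG => ?_⟩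
    have e1 := Kc_cob h hf htG htH D htD n b hb hgD hgG
    rw [Kc_change h hf hs hs' htG htH hgG] at e1
    linear_combination e1
  · refine ⟨b + ρ s * b', fun g hgD hgG => ?_⟩
    have hgH : g ∈ H := by
      by_contra hgH
      exact hD ⟨g, hgD, hgG, hgH⟩
    rw [Kc_in h hf hs hs' hgH]
    linear_combination hb g hgD hgH + ρ s * hb' g hgD hgH

/-- inertia -/
theorem Kc_unr (h : Sett G H ρ) (hf : Cz H ρ f) {s : Γ} (hs : s ∈ G) (hs' : s ∉ H) [IsDomain R]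
    {g : Γ} (hgG : g ∈ G) (h0 : f (g * g) = 0) (h1 : f (s⁻¹ * (g * g) * s) = 0) (h2 : 1 + ρ g ≠ 0) :
    Kc ρ s f g = 0 := by
  have e1 : g * g ∈ H := (h.idx g hgG g hgG).2 Iff.rfl
  have e2 := Kc_coc h hf hs hs' hgG hgG
  rw [Kc_in h hf hs hs' e1, h0, h1] at e2
  have e3 : (1 + ρ g) * Kc ρ s f g = 0 := by linear_combination -e2
  rcases mul_eq_zero.1 e3 with h3 | h3
  · exact absurd h3 h2
  · exact h3

end Pool.Agent.Q150.LS
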