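import Pool.Agent.Q283.LS.Stm
import Pool.Agent.Q150.LS.CorAbs

/-! JOB LS-COR of helper283: corestriction for the quadratic extension `F(x)/F` on cocycles. -/

set_option autoImplicit false

namespace Pool.Agent.Q150.LS

open NumberField IsDedekindDomain Filter Topology Pool.Agent.Q283.LQ Pool.Agent.Q283.LS

section Ext

variable {Γ : Type} [Group Γ] {R : Type} [CommRing R]

open Classical in
/-- extension by zero -/
noncomputable def Ex (H : Subgroup Γ) (f : H → R) (σ : Γ) : R := if h : σ ∈ H then f ⟨σ, h⟩ else 0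

theorem Ex_mem {H : Subgroup Γ} (f : H → R) {σ : Γ} (h : σ ∈ H) : Ex H f σ = f ⟨σ, h⟩ := by
  unfold Ex
  rw [dif_pos h]

theorem Ex_not {H : Subgroup Γ} (f : H → R) {σ : Γ} (h : σ ∉ H) : Ex H f σ = 0 := by
  unfold Ex
  rw [dif_neg h]

theorem Ex_add (H : Subgroup Γ) (f g : H → R) (σ : Γ) : Ex H (f + g) σ = Ex H f σ + Ex H g σ := by
  by_cases h : σ ∈ H
  · rw [Ex_mem _ h, Ex_mem _ h, Ex_mem _ h]
    rfl
  · rw [Ex_not _ h, Ex_not _ h, Ex_not _ h, add_zero]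

theorem Ex_smul (H : Subgroup Γ) (c : R) (f : H → R) (σ : Γ) : Ex H (c • f) σ = c * Ex H f σ := by
  by_cases h : σ ∈ H
  · rw [Ex_mem _ h, Ex_mem _ h]
    rfl
  · rw [Ex_not _ h, Ex_not _ h, mul_zero]

/-- the corestriction as a linear map -/
noncomputable def Cor (H G : Subgroup Γ) (ρ : Γ → R) (s : Γ) : (H → R) →ₗ[R] (G → R) where
  toFun f τ := Kc ρ s (Ex H f) τ.1
  map_add' f g := by
    funext τ
    simp only [Pi.add_apply, Kc, Ex_add]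
    ring
  map_smul' c f := by
    funext τ
    simp only [Pi.smul_apply, Kc, Ex_smul, RingHom.id_apply, smul_eq_mul]
    ring

theorem Cor_apply (H G : Subgroup Γ) (ρ : Γ → R) (s : Γ) (f : H → R) (τ : G) :
    Cor H G ρ s f τ = Kc ρ s (Ex H f) τ.1 := rfl

theorem Cor_eq (H G : Subgroup Γ) (ρ : Γ → R) (s : Γ) (f : H → R) :
    (Cor H G ρ s f : G → R) = fun τ : G => Kc ρ s (Ex H f) τ.1 := rfl

theorem Ex_cont [TopologicalSpace Γ] [IsTopologicalGroup Γ] [TopologicalSpace R] {H : Subgroup Γ}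
    (hH : IsOpen (H : Set Γ)) {f : H → R} (hf : Continuous f) : Continuous (Ex H f) := by
  rw [continuous_iff_continuousAt]
  have hc : IsClosed (H : Set Γ) := Subgroup.isClosed_of_isOpen H hH
  intro σ
  by_cases h : σ ∈ H
  · have h1 : ContinuousOn (Ex H f) (H : Set Γ) := by
      rw [continuousOn_iff_continuous_domRestrict]
      have h2 : (H : Set Γ).domRestrict (Ex H f) = f := by
        funext τ
        exact Ex_mem f τ.2
      rw [h2]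
      exact hf
    exact h1.continuousAt (hH.mem_nhds h)
  · have h1 : Ex H f =ᶠ[𝓝 σ] fun _ => 0 := by
      filter_upwards [hc.isOpen_compl.mem_nhds h] with τ hτ
      exact Ex_not f hτ
    exact continuousAt_const.congr h1.symm

theorem Kc_cont [TopologicalSpace Γ] [IsTopologicalGroup Γ] [TopologicalSpace R] [IsTopologicalRing R]
    (ρ : Γ → R) (s : Γ) {f : Γ → R} (hf : Continuous f) : Continuous (Kc ρ s f) := by
  unfold Kc
  fun_prop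

theorem Cor_cont [TopologicalSpace Γ] [IsTopologicalGroup Γ] [TopologicalSpace R] [IsTopologicalRing R]
    {H : Subgroup Γ} (G : Subgroup Γ) (hH : IsOpen (H : Set Γ)) (ρ : Γ → R) (s : Γ) {f : H → R} (hf : Continuous f) :
    Continuous (Cor H G ρ s f) := by
  rw [Cor_eq]
  exact (Kc_cont ρ s (Ex_cont hH hf)).comp continuous_subtype_val

theorem Cor_coc {G H : Subgroup Γ} {ρ : Γ → R} (h : Sett G H ρ) {f : H → R} (hf : Cz H ρ (Ex H f)) {s : Γ}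
    (hs : s ∈ G) (hs' : s ∉ H) (σ τ : G) :
    Cor H G ρ s f (σ * τ) = Cor H G ρ s f σ + ρ σ.1 * Cor H G ρ s f τ := by
  rw [Cor_apply, Cor_apply, Cor_apply]
  exact Kc_coc h hf hs hs' σ.2 τ.2

end Ext

section Gal

variable {Ω : Type} [Field Ω] [CharZero Ω]

theorem chi_mul (σ τ : Ω ≃ₐ[ℚ] Ω) : chi (σ * τ) = chi σ * chi τ := by
  unfold chi
  rw [← Units.val_mul, ← map_mul]
  rfl

theorem chi_one : chi (1 : Ω ≃ₐ[ℚ] Ω) = 1 := by
  unfold chi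
  have h : (((1 : Ω ≃ₐ[ℚ] Ω) : Ω ≃+* Ω)) = 1 := rfl
  rw [h, map_one, Units.val_one]

/-- the decomposition group -/
def DecS {l : ℕ} [Fact l.Prime] (j : Ω →+* PadicAlgCl l) : Subgroup (Ω ≃ₐ[ℚ] Ω) where
  carrier := {σ | Dec j σ}
  mul_mem' := by
    rintro σ₁ σ₂ ⟨τ₁, h₁⟩ ⟨τ₂, h₂⟩
    refine ⟨τ₁ * τ₂, fun x => ?_⟩
    rw [AlgEquiv.mul_apply, h₂, h₁, AlgEquiv.mul_apply]
  one_mem' := ⟨1, fun x => by simp⟩
  inv_mem' := by
    rintro σ ⟨τ, h⟩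
    refine ⟨τ⁻¹, fun x => ?_⟩
    have h1 := h (σ⁻¹ x)
    have h2 : σ (σ⁻¹ x) = x := by
      rw [← AlgEquiv.mul_apply, mul_inv_cancel, AlgEquiv.one_apply]
    rw [h2] at h1
    rw [← h1, ← AlgEquiv.mul_apply, inv_mul_cancel, AlgEquiv.one_apply]

theorem mem_DecS {l : ℕ} [Fact l.Prime] (j : Ω →+* PadicAlgCl l) (σ : Ω ≃ₐ[ℚ] Ω) : σ ∈ DecS j ↔ Dec j σ := Iff.rfl

/-- the group of the complex conjugation -/
def CnjS (j : Ω →+* ℂ) : Subgroup (Ω ≃ₐ[ℚ] Ω) where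
  carrier := {σ | σ = 1 ∨ Cnj j σ}
  mul_mem' := by
    rintro σ₁ σ₂ (rfl | h₁) (rfl | h₂)
    · left; rfl
    · right; rw [one_mul]; exact h₂
    · right; rw [mul_one]; exact h₁
    · left
      ext x
      apply j.injective
      rw [AlgEquiv.mul_apply, h₁, h₂, Complex.conj_conj, AlgEquiv.one_apply]
  one_mem' := Or.inl rfl
  inv_mem' := by
    rintro σ (rfl | h)
    · left; rw [inv_one]
    · right
      intro x
      have h1 := h (σ⁻¹ x)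
      have h2 : σ (σ⁻¹ x) = x := by
        rw [← AlgEquiv.mul_apply, mul_inv_cancel, AlgEquiv.one_apply]
      rw [h2] at h1
      rw [h1, Complex.conj_conj]

/-- the embedding `j ∘ s` -/
def js {A : Type} [Semiring A] (j : Ω →+* A) (s : Ω ≃ₐ[ℚ] Ω) : Ω →+* A := j.comp (s : Ω →+* Ω)

theorem js_apply {A : Type} [Semiring A] (j : Ω →+* A) (s : Ω ≃ₐ[ℚ] Ω) (y : Ω) : js j s y = j (s y) := rfl

theorem conj_apply (s σ : Ω ≃ₐ[ℚ] Ω) (y : Ω) : s ((s⁻¹ * σ * s) y) = σ (s y) := by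
  rw [← AlgEquiv.mul_apply, ← AlgEquiv.mul_apply]
  congr 1
  group

theorem dec_conj {l : ℕ} [Fact l.Prime] {j : Ω →+* PadicAlgCl l} {σ : Ω ≃ₐ[ℚ] Ω} (s : Ω ≃ₐ[ℚ] Ω)
    (h : Dec j σ) : Dec (js j s) (s⁻¹ * σ * s) := by
  obtain ⟨τ, h⟩ := h
  refine ⟨τ, fun y => ?_⟩
  rw [js_apply, js_apply, conj_apply, h]

theorem inr_conj {l : ℕ} [Fact l.Prime] {j : Ω →+* PadicAlgCl l} {σ : Ω ≃ₐ[ℚ] Ω} (s : Ω ≃ₐ[ℚ] Ω)
    (h : Inr j σ) : Inr (js j s) (s⁻¹ * σ * s) := by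
  refine ⟨dec_conj s h.1, fun y hy => ?_⟩
  rw [js_apply] at hy
  rw [js_apply, js_apply, conj_apply]
  exact h.2 _ hy

theorem cnj_conj {j : Ω →+* ℂ} {σ : Ω ≃ₐ[ℚ] Ω} (s : Ω ≃ₐ[ℚ] Ω)
    (h : Cnj j σ) : Cnj (js j s) (s⁻¹ * σ * s) := by
  intro y
  rw [js_apply, js_apply, conj_apply, h]

theorem inr_sq {l : ℕ} [Fact l.Prime] {j : Ω →+* PadicAlgCl l} {σ : Ω ≃ₐ[ℚ] Ω}
    (h : Inr j σ) : Inr j (σ * σ) := by
  refine ⟨(DecS j).mul_mem h.1 h.1, fun y hy => ?_⟩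
  have h1 := h.2 y hy
  have h2 : ‖j (σ y)‖ ≤ 1 := by
    have e : j (σ y) = (j (σ y) - j y) + j y := by ring
    rw [e]
    exact (PadicAlgCl.isNonarchimedean l _ _).trans (max_le h1.le hy)
  have h3 := h.2 (σ y) h2
  rw [AlgEquiv.mul_apply]
  have e : j (σ (σ y)) - j y = (j (σ (σ y)) - j (σ y)) + (j (σ y) - j y) := by ring
  rw [e]
  exact (PadicAlgCl.isNonarchimedean l _ _).trans_lt (max_lt h3 h1)

theorem norm_two {l : ℕ} [Fact l.Prime] (hl : l ≠ 2) : ‖(2 : PadicAlgCl l)‖ = 1 := by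
  have h1 : (2 : PadicAlgCl l) = ((2 : ℚ_[l]) : PadicAlgCl l) := by
    rw [← map_ofNat (algebraMap ℚ_[l] (PadicAlgCl l)) 2]
  rw [h1, PadicAlgCl.norm_extends]
  have h2 : ‖((2 : ℕ) : ℚ_[l])‖ = 1 := by
    rw [Padic.norm_natCast_eq_one_iff]
    exact (Nat.coprime_primes Fact.out Nat.prime_two).2 hl
  exact_mod_cast h2

/-- the cyclotomic character on the inertia group -/
theorem chi_inr [IsAlgClosed Ω] {l : ℕ} [Fact l.Prime] (hl : l ≠ 2) {j : Ω →+* PadicAlgCl l} {σ : Ω ≃ₐ[ℚ] Ω}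
    (h : Inr j σ) (r : ℕ) : 1 + chi σ ^ r ≠ 0 := by
  obtain ⟨i, hi⟩ := IsAlgClosed.exists_pow_nat_eq (-1 : Ω) (n := 2) (by norm_num)
  have hji : ‖j i‖ = 1 := by
    have h1 : ‖j i‖ ^ 2 = 1 := by
      rw [← norm_pow, ← map_pow, hi, map_neg, map_one, norm_neg, norm_one]
    have h2 : 0 ≤ ‖j i‖ := norm_nonneg _
    nlinarith
  have hσi : σ i = i := by
    have h1 : (σ i - i) * (σ i + i) = 0 := by
      have h2 : (σ i) ^ 2 = -1 := by rw [← map_pow, hi, map_neg, map_one]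
      linear_combination h2 - hi
    rcases mul_eq_zero.1 h1 with h2 | h2
    · linear_combination h2
    · exfalso
      have h3 := h.2 i hji.le
      have h4 : σ i = -i := by linear_combination h2
      rw [h4, map_neg] at h3
      have h5 : -j i - j i = -(2 * j i) := by ring
      rw [h5, norm_neg, norm_mul, norm_two hl, hji] at h3
      norm_num at h3
  have hroots : ∀ n : ℕ, HasEnoughRootsOfUnity Ω (2 ^ n) := by
    intro n
    have : NeZero (((2 ^ n : ℕ) : Ω)) := ⟨by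
      push_cast
      exact pow_ne_zero n two_ne_zero⟩
    infer_instance
  have h4 := cyclotomicCharacter.spec (L := Ω) 2 (n := 2) ((σ : Ω ≃+* Ω)) i (by
    have : i ^ 2 ^ 2 = (i ^ 2) ^ 2 := by ring
    rw [this, hi]
    norm_num)
  have h5 : ((σ : Ω ≃+* Ω)) i = i := hσi
  rw [h5] at h4
  obtain ⟨k, hk⟩ : ∃ k : ZMod (2 ^ 2), k = (cyclotomicCharacter Ω 2 (σ : Ω ≃+* Ω)).val.toZModPow 2 := ⟨_, rfl⟩
  rw [← hk] at h4
  have hk1 : k = 1 := by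
    have hi1 : i ≠ 0 := by
      rintro rfl
      norm_num at hi
    have h11 : (1 : Ω) ≠ -1 := by
      intro h6
      have : (2 : Ω) = 0 := by linear_combination h6
      exact two_ne_zero this
    have hii : i ≠ -i := by
      intro h6
      have : 2 * i = 0 := by linear_combination h6
      rcases mul_eq_zero.1 this with h7 | h7
      · exact two_ne_zero h7
      · exact hi1 h7
    change ZMod 4 at k
    fin_cases k
    · exfalso
      simp only [Fin.zero_eta] at h4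
      change i = i ^ 0 at h4
      rw [pow_zero] at h4
      rw [h4] at hi
      apply h11
      rw [← hi]
      norm_num
    · rfl
    · exfalso
      change i = i ^ 2 at h4
      rw [hi] at h4
      rw [h4] at hi
      apply h11
      rw [← hi]
      norm_num
    · exfalso
      change i = i ^ 3 at h4
      apply hii
      have : i ^ 3 = i ^ 2 * i := by ring
      rw [this, hi] at h4
      linear_combination h4
  intro h0
  have h6 := congrArg (PadicInt.toZModPow 2) h0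
  have h7 : (PadicInt.toZModPow 2) (chi σ) = 1 := by
    rw [← hk1, hk]
    rfl
  rw [map_add, map_one, map_pow, h7, one_pow, map_zero] at h6
  revert h6
  decide

theorem fix_mem (F : IntermediateField ℚ Ω) (x : Ω) (σ : Ω ≃ₐ[ℚ] Ω) :
    σ ∈ (F ⊔ IntermediateField.adjoin ℚ {x}).fixingSubgroup ↔ σ ∈ F.fixingSubgroup ∧ σ x = x := by
  rw [IntermediateField.fixingSubgroup_sup, Subgroup.mem_inf]
  refine and_congr Iff.rfl ?_
  rw [IntermediateField.mem_fixingSubgroup_iff]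
  constructor
  · intro h
    exact h x (IntermediateField.mem_adjoin_simple_self ℚ x)
  · intro h y hy
    induction hy using IntermediateField.adjoin_induction with
    | mem y hy =>
      rw [Set.mem_singleton_iff] at hy
      rw [hy, h]
    | algebraMap q => exact σ.commutes q
    | add a b _ _ ha hb => rw [map_add, ha, hb]
    | inv a _ ha => rw [map_inv₀, ha]
    | mul a b _ _ ha hb => rw [map_mul, ha, hb]

theorem exists_s [IsAlgClosed Ω] [Algebra.IsAlgebraic ℚ Ω] (F : IntermediateField ℚ Ω) {d : F} {x : Ω}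
    (hx : x ^ 2 = (d : Ω)) (hd : ¬ IsSquare d) : ∃ s ∈ F.fixingSubgroup, s x ≠ x := by
  by_contra hcon
  push Not at hcon
  have h0 : IsAlgClosure ℚ Ω := ⟨inferInstance, inferInstance⟩
  have h2 : IsGalois ℚ Ω := inferInstance
  have h1 : x ∈ IntermediateField.fixedField F.fixingSubgroup := by
    rw [IntermediateField.mem_fixedField_iff]
    intro σ hσ
    exact hcon σ hσ
  rw [InfiniteGalois.fixedField_fixingSubgroup] at h1
  apply hd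
  refine ⟨⟨x, h1⟩, ?_⟩
  apply Subtype.ext
  rw [← hx]
  change x ^ 2 = x * x
  ring

theorem pm {F : IntermediateField ℚ Ω} {d : F} {x : Ω} (hx : x ^ 2 = (d : Ω)) {σ : Ω ≃ₐ[ℚ] Ω}
    (hσ : σ ∈ F.fixingSubgroup) : σ x = x ∨ σ x = -x := by
  have h1 : σ (d : Ω) = d := (IntermediateField.mem_fixingSubgroup_iff F σ).1 hσ _ d.2
  have h2 : (σ x - x) * (σ x + x) = 0 := by
    have h3 : (σ x) ^ 2 = x ^ 2 := by rw [← map_pow, hx, h1]
    linear_combination h3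
  rcases mul_eq_zero.1 h2 with h3 | h3
  · left; linear_combination h3
  · right; linear_combination h3

theorem x_ne {F : IntermediateField ℚ Ω} {d : F} {x : Ω} (hx : x ^ 2 = (d : Ω)) (hd : ¬ IsSquare d) : x ≠ -x := by
  intro h
  have h1 : x = 0 := by
    have h2 : 2 * x = 0 := by linear_combination h
    rcases mul_eq_zero.1 h2 with h3 | h3
    · exact absurd h3 two_ne_zero
    · exact h3
  apply hd
  refine ⟨0, ?_⟩
  apply Subtype.ext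
  rw [← hx, h1]
  simp

theorem sgn_mul {F : IntermediateField ℚ Ω} {d : F} {x : Ω} (hx : x ^ 2 = (d : Ω)) (hd : ¬ IsSquare d)
    {σ τ : Ω ≃ₐ[ℚ] Ω} (hσ : σ ∈ F.fixingSubgroup) (hτ : τ ∈ F.fixingSubgroup) :
    sgn x (σ * τ) = sgn x σ * sgn x τ := by
  have h0 := x_ne hx hd
  have h0' : -x ≠ x := fun h => h0 h.symm
  unfold sgn
  rw [AlgEquiv.mul_apply]
  rcases pm hx hτ with h | h <;> rcases pm hx hσ with h' | h'
  · rw [if_pos h, h, if_pos h', mul_one]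
  · rw [if_pos h, h, mul_one]
  · rw [h, map_neg, h', if_neg h0', if_pos rfl, one_mul]
  · rw [h, map_neg, h', neg_neg, if_pos rfl, if_neg h0']
    norm_num

theorem idx {F : IntermediateField ℚ Ω} {d : F} {x : Ω} (hx : x ^ 2 = (d : Ω)) (hd : ¬ IsSquare d)
    {σ τ : Ω ≃ₐ[ℚ] Ω} (hσ : σ ∈ F.fixingSubgroup) (hτ : τ ∈ F.fixingSubgroup) :
    (σ * τ ∈ (F ⊔ IntermediateField.adjoin ℚ {x}).fixingSubgroup ↔
      (σ ∈ (F ⊔ IntermediateField.adjoin ℚ {x}).fixingSubgroup ↔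
        τ ∈ (F ⊔ IntermediateField.adjoin ℚ {x}).fixingSubgroup)) := by
  have h0 := x_ne hx hd
  have h0' : -x ≠ x := fun h => h0 h.symm
  have hm := mul_mem hσ hτ
  rw [fix_mem, fix_mem, fix_mem, AlgEquiv.mul_apply]
  rcases pm hx hτ with h | h <;> rcases pm hx hσ with h' | h'
  · rw [h, h']
    tauto
  · rw [h, h']
    tauto
  · rw [h, map_neg, h']
    tauto
  · rw [h, map_neg, h', neg_neg]
    tauto

theorem loc_main {G H : Subgroup (Ω ≃ₐ[ℚ] Ω)} {ρ : (Ω ≃ₐ[ℚ] Ω) → ℤ_[2]} {r : ℕ} (hS : Sett G H ρ)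
    (hρ : ∀ σ ∈ H, ρ σ = chi σ ^ r) {f : H → ℤ_[2]} (hf : Cz H ρ (Ex H f)) {s : Ω ≃ₐ[ℚ] Ω} (hs : s ∈ G)
    (hs' : s ∉ H) (D : Subgroup (Ω ≃ₐ[ℚ] Ω)) (P P' : (Ω ≃ₐ[ℚ] Ω) → Prop) (hP : ∀ g ∈ D, g = 1 ∨ P g)
    (hP' : ∀ g ∈ D, g = 1 ∨ P' (s⁻¹ * g * s)) (n b b' : ℤ_[2])
    (h : ∀ σ : H, P σ.1 → n * f σ = (chi σ.1 ^ r - 1) * b)
    (h' : ∀ σ : H, P' σ.1 → n * f σ = (chi σ.1 ^ r - 1) * b') :
    ∃ c : ℤ_[2], ∀ g : G, g.1 ∈ D → n * Cor H G ρ s f g = (ρ g - 1) * c := by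
  have f1 : Ex H f 1 = 0 := by
    have := hf.coc 1 H.one_mem 1 H.one_mem
    rw [mul_one, hS.one] at this
    linear_combination (-1 : ℤ_[2]) * this
  obtain ⟨c, hc⟩ := Kc_loc hS hf hs hs' D n b b'
    (by
      intro g hgD hgH
      rcases hP g hgD with rfl | h1
      · rw [f1, hS.one]
        ring
      · rw [Ex_mem f hgH, hρ g hgH]
        exact h ⟨g, hgH⟩ h1)
    (by
      intro g hgD hgH
      rcases hP' g hgD with rfl | h1
      · have e : s⁻¹ * 1 * s = 1 := by group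
        rw [e, f1, hS.one]
        ring
      · have m1 := (hS.mem3 hs hs' (hS.le hgH)).2 hgH
        rw [Ex_mem f m1, hρ g hgH]
        have h2 := h' ⟨s⁻¹ * g * s, m1⟩ h1
        rw [h2]
        have h3 : chi (s⁻¹ * g * s) = chi g := by
          rw [chi_mul, chi_mul, mul_comm, ← mul_assoc, ← chi_mul, mul_inv_cancel, chi_one, one_mul]
        rw [h3])
  exact ⟨c, fun g hgD => hc g.1 hgD g.2⟩

theorem chi_conj (s g : Ω ≃ₐ[ℚ] Ω) : chi (s⁻¹ * g * s) = chi g := by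
  rw [chi_mul, chi_mul, mul_comm, ← mul_assoc, ← chi_mul, mul_inv_cancel, chi_one, one_mul]

theorem cz1 {r : ℕ} {H : Subgroup (Ω ≃ₐ[ℚ] Ω)} {f : H → ℤ_[2]} (hf : IsCoc (fun σ : H => chi σ.1 ^ r) f) :
    Cz H (fun σ : Ω ≃ₐ[ℚ] Ω => chi σ ^ r) (Ex H f) := by
  refine ⟨fun g hg => Ex_not f hg, fun a ha b hb => ?_⟩
  rw [Ex_mem f ha, Ex_mem f hb, Ex_mem f (mul_mem ha hb)]
  exact hf.coc ⟨a, ha⟩ ⟨b, hb⟩

theorem cz2 {r : ℕ} {x : Ω} {H : Subgroup (Ω ≃ₐ[ℚ] Ω)} (hsg : ∀ σ ∈ H, sgn x σ = 1) {f : H → ℤ_[2]}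
    (hf : IsCoc (fun σ : H => chi σ.1 ^ r) f) :
    Cz H (fun σ : Ω ≃ₐ[ℚ] Ω => chi σ ^ r * sgn x σ) (Ex H f) := by
  refine ⟨fun g hg => Ex_not f hg, fun a ha b hb => ?_⟩
  have h3 := (cz1 hf).coc a ha b hb
  rw [h3, hsg a ha, mul_one]

theorem sha_part [IsAlgClosed Ω] {G H : Subgroup (Ω ≃ₐ[ℚ] Ω)} {r : ℕ}
    (hS1 : Sett G H (fun σ : Ω ≃ₐ[ℚ] Ω => chi σ ^ r)) {s : Ω ≃ₐ[ℚ] Ω} (hsG : s ∈ G) (hsH : s ∉ H)
    (hopen : IsOpen (H : Set (Ω ≃ₐ[ℚ] Ω))) {S : Set ℕ} (h2 : 2 ∈ S) {f : H → ℤ_[2]}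
    (hf : InSha S (fun σ : H => chi σ.1 ^ r) f) :
    InSha S (fun σ : G => chi σ.1 ^ r) (Cor H G (fun σ : Ω ≃ₐ[ℚ] Ω => chi σ ^ r) s f) := by
  have hz1 := cz1 hf.coc
  refine ⟨⟨?_, ?_⟩, ?_, ?_, ?_⟩
  · exact Cor_cont G hopen _ s hf.coc.cont
  · exact Cor_coc hS1 hz1 hsG hsH
  · intro l _ hl j σ hσ
    have hl2 : l ≠ 2 := by
      rintro rfl
      exact hl h2
    have e1 : σ.1 * σ.1 ∈ H := (hS1.idx _ σ.2 _ σ.2).2 Iff.rfl
    have e2 := (hS1.mem3 hsG hsH (mul_mem σ.2 σ.2)).2 e1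
    apply Kc_unr hS1 hz1 hsG hsH σ.2
    · rw [Ex_mem f e1]
      exact hf.unr l hl j ⟨_, e1⟩ (inr_sq hσ)
    · rw [Ex_mem f e2]
      exact hf.unr l hl (js j s) ⟨_, e2⟩ (inr_conj s (inr_sq hσ))
    · exact chi_inr hl2 hσ r
  · intro l _ hl j
    obtain ⟨b, hb⟩ := hf.loc l hl j
    obtain ⟨b', hb'⟩ := hf.loc l hl (js j s)
    obtain ⟨c, hc⟩ := loc_main hS1 (fun σ _ => rfl) hz1 hsG hsH (DecS j) (Dec j) (Dec (js j s))
      (fun g hg => Or.inr hg) (fun g hg => Or.inr (dec_conj s hg)) 1 b b'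
      (fun σ hσ => by rw [one_mul]; exact hb σ hσ) (fun σ hσ => by rw [one_mul]; exact hb' σ hσ)
    refine ⟨c, fun σ hσ => ?_⟩
    have h3 := hc σ hσ
    rw [one_mul] at h3
    exact h3
  · intro j
    obtain ⟨b, hb⟩ := hf.real j
    obtain ⟨b', hb'⟩ := hf.real (js j s)
    obtain ⟨c, hc⟩ := loc_main hS1 (fun σ _ => rfl) hz1 hsG hsH (CnjS j) (Cnj j) (Cnj (js j s))
      (fun g hg => hg) (fun g hg => hg.imp id (cnj_conj s)) 1 b b'
      (fun σ hσ => by rw [one_mul]; exact hb σ hσ) (fun σ hσ => by rw [one_mul]; exact hb' σ hσ)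
    refine ⟨c, fun σ hσ => ?_⟩
    have h3 := hc σ (Or.inr hσ)
    rw [one_mul] at h3
    exact h3

theorem sel_part {G H : Subgroup (Ω ≃ₐ[ℚ] Ω)} {r : ℕ} {x : Ω}
    (hS2 : Sett G H (fun σ : Ω ≃ₐ[ℚ] Ω => chi σ ^ r * sgn x σ)) (hsg : ∀ σ ∈ H, sgn x σ = 1)
    {s : Ω ≃ₐ[ℚ] Ω} (hsG : s ∈ G) (hsH : s ∉ H)
    (hopen : IsOpen (H : Set (Ω ≃ₐ[ℚ] Ω))) {f : H → ℤ_[2]}
    (hf : IsCoc (fun σ : H => chi σ.1 ^ r) f)
    (key : ∀ (l : ℕ) [Fact l.Prime] (j : Ω →+* PadicAlgCl l), ∃ n b : ℤ_[2], n ≠ 0 ∧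
      ∀ σ : H, Dec j σ.1 → n * f σ = (chi σ.1 ^ r - 1) * b) :
    InSel (fun σ : G => chi σ.1 ^ r * sgn x σ.1) (Cor H G (fun σ : Ω ≃ₐ[ℚ] Ω => chi σ ^ r * sgn x σ) s f) := by
  have hz2 := cz2 hsg hf
  refine ⟨⟨?_, ?_⟩, ?_⟩
  · exact Cor_cont G hopen _ s hf.cont
  · exact Cor_coc hS2 hz2 hsG hsH
  · intro l _ j
    obtain ⟨n₁, b₁, hn₁, h₁⟩ := key l j
    obtain ⟨n₂, b₂, hn₂, h₂⟩ := key l (js j s)
    have hρ : ∀ σ ∈ H, (fun σ : Ω ≃ₐ[ℚ] Ω => chi σ ^ r * sgn x σ) σ = chi σ ^ r := by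
      intro σ hσ
      change chi σ ^ r * sgn x σ = chi σ ^ r
      rw [hsg σ hσ, mul_one]
    obtain ⟨c, hc⟩ := loc_main (r := r) hS2 hρ hz2 hsG hsH (DecS j) (Dec j)
      (Dec (js j s)) (fun g hg => Or.inr hg) (fun g hg => Or.inr (dec_conj s hg)) (n₁ * n₂) (n₂ * b₁) (n₁ * b₂)
      (fun σ hσ => by linear_combination n₂ * h₁ σ hσ) (fun σ hσ => by linear_combination n₁ * h₂ σ hσ)
    exact ⟨n₁ * n₂, c, mul_ne_zero hn₁ hn₂, fun σ hσ => hc σ hσ⟩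

theorem cob_part {G H : Subgroup (Ω ≃ₐ[ℚ] Ω)} {r : ℕ}
    (hS1 : Sett G H (fun σ : Ω ≃ₐ[ℚ] Ω => chi σ ^ r)) {s : Ω ≃ₐ[ℚ] Ω} (hsG : s ∈ G) (hsH : s ∉ H) (b : ℤ_[2]) :
    Cor H G (fun σ : Ω ≃ₐ[ℚ] Ω => chi σ ^ r) s (fun σ : H => (chi σ.1 ^ r - 1) * b) =
      fun σ : G => (chi σ.1 ^ r - 1) * ((1 + chi s ^ r) * b) := by
  have hz : Cz H (fun σ : Ω ≃ₐ[ℚ] Ω => chi σ ^ r) (Ex H (fun σ => (chi σ.1 ^ r - 1) * b)) := by
    refine ⟨fun g hg => Ex_not _ hg, fun a ha c hc => ?_⟩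
    rw [Ex_mem _ ha, Ex_mem _ hc, Ex_mem _ (mul_mem ha hc)]
    simp only [chi_mul]
    ring
  funext σ
  have h3 := Kc_cob hS1 hz hsG hsH ⊤ (Subgroup.mem_top _) 1 b
    (fun g _ hg => by rw [Ex_mem _ hg, one_mul]) (Subgroup.mem_top σ.1) σ.2
  rw [one_mul] at h3
  exact h3

theorem sum_part {G H : Subgroup (Ω ≃ₐ[ℚ] Ω)} {r : ℕ} {x : Ω}
    (hS1 : Sett G H (fun σ : Ω ≃ₐ[ℚ] Ω => chi σ ^ r)) {s : Ω ≃ₐ[ℚ] Ω} (hsG : s ∈ G) (hsH : s ∉ H)
    (hss : sgn x s = -1) (f : H → ℤ_[2]) (σ : H) (τ : G) (hτ : τ.1 = σ.1) :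
    Cor H G (fun σ : Ω ≃ₐ[ℚ] Ω => chi σ ^ r) s f τ + Cor H G (fun σ : Ω ≃ₐ[ℚ] Ω => chi σ ^ r * sgn x σ) s f τ =
      2 * f σ := by
  have hτH : τ.1 ∈ H := by rw [hτ]; exact σ.2
  have m1 : s⁻¹ * τ.1 ∉ H := fun h => (hS1.mem2 hsG hsH τ.2).1 h hτH
  have m2 : τ.1 * s ∉ H := fun h => (hS1.mem1 hsG hsH τ.2).1 h hτH
  rw [Cor_apply, Cor_apply]
  unfold Kc
  rw [Ex_not f m1, Ex_not f m2, Ex_mem f hτH]
  simp only [hss]
  have h3 : (⟨τ.1, hτH⟩ : H) = σ := Subtype.ext hτ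
  rw [h3]
  ring

theorem sett1 {F : IntermediateField ℚ Ω} {d : F} {x : Ω} (hx : x ^ 2 = (d : Ω)) (hd : ¬ IsSquare d) (r : ℕ) :
    Sett F.fixingSubgroup (F ⊔ IntermediateField.adjoin ℚ {x}).fixingSubgroup
      (fun σ : Ω ≃ₐ[ℚ] Ω => chi σ ^ r) := by
  refine ⟨fun σ hσ => ((fix_mem F x σ).1 hσ).1, ?_, ?_, ?_⟩
  · intro a ha b hb
    exact idx hx hd ha hb
  · simp only [chi_one, one_pow]
  · intro a _ b _
    simp only [chi_mul, mul_pow]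

theorem sett2 {F : IntermediateField ℚ Ω} {d : F} {x : Ω} (hx : x ^ 2 = (d : Ω)) (hd : ¬ IsSquare d) (r : ℕ) :
    Sett F.fixingSubgroup (F ⊔ IntermediateField.adjoin ℚ {x}).fixingSubgroup
      (fun σ : Ω ≃ₐ[ℚ] Ω => chi σ ^ r * sgn x σ) := by
  refine ⟨(sett1 hx hd r).le, (sett1 hx hd r).idx, ?_, ?_⟩
  · have : sgn x (1 : Ω ≃ₐ[ℚ] Ω) = 1 := by
      unfold sgn
      rw [if_pos (by simp)]
    simp only [chi_one, one_pow, this, mul_one]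
  · intro a ha b hb
    simp only [chi_mul, mul_pow, sgn_mul hx hd ha hb]
    ring

theorem nf {F : IntermediateField ℚ Ω} [NumberField F] (x : Ω) [Algebra.IsAlgebraic ℚ Ω] :
    NumberField (F ⊔ IntermediateField.adjoin ℚ {x} : IntermediateField ℚ Ω) ∧
      IsOpen ((F ⊔ IntermediateField.adjoin ℚ {x}).fixingSubgroup : Set (Ω ≃ₐ[ℚ] Ω)) := by
  have hfinF : FiniteDimensional ℚ F := inferInstance
  have hfinx : FiniteDimensional ℚ (IntermediateField.adjoin ℚ {x}) := by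
    apply IntermediateField.adjoin.finiteDimensional
    exact Algebra.IsIntegral.isIntegral x
  have hfinL : FiniteDimensional ℚ (F ⊔ IntermediateField.adjoin ℚ {x} : IntermediateField ℚ Ω) :=
    IntermediateField.finiteDimensional_sup F _
  exact ⟨⟨⟩, IntermediateField.fixingSubgroup_isOpen _⟩

end Gal

theorem cor (hLT : S_LT) : S_COR := by
  intro Ω _ _ _ _ F _ d x hx hd S r h2 hr
  obtain ⟨s, hs, hsx⟩ := exists_s F hx hd
  have hsH : s ∉ (F ⊔ IntermediateField.adjoin ℚ {x}).fixingSubgroup := fun h => hsx ((fix_mem F x s).1 h).2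
  have hS1 := sett1 hx hd r
  have hS2 := sett2 hx hd r
  have hsg : ∀ σ ∈ (F ⊔ IntermediateField.adjoin ℚ {x}).fixingSubgroup, sgn x σ = 1 := by
    intro σ hσ
    unfold sgn
    rw [if_pos ((fix_mem F x σ).1 hσ).2]
  have hss : sgn x s = -1 := by
    unfold sgn
    rw [if_neg hsx]
  obtain ⟨hNL, hopen⟩ := nf (F := F) x
  refine ⟨Cor _ _ (fun σ : Ω ≃ₐ[ℚ] Ω => chi σ ^ r) s, Cor _ _ (fun σ : Ω ≃ₐ[ℚ] Ω => chi σ ^ r * sgn x σ) s,
    fun f hf => ⟨sha_part hS1 hs hsH hopen h2 hf, sel_part hS2 hsg hs hsH hopen hf.coc ?_⟩,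
    fun b => ⟨_, cob_part hS1 hs hsH b⟩, fun f σ τ hτ => sum_part hS1 hs hsH hss f σ τ hτ⟩
  intro l _ j
  by_cases hl : l ∈ S
  · obtain ⟨b, hb⟩ := hf.loc l hl j
    exact ⟨1, b, one_ne_zero, fun σ hσ => by rw [one_mul]; exact hb σ hσ⟩
  · exact hLT Ω _ l j r hr f hf.coc (fun σ hσ => hf.unr l hl j σ hσ)

end Pool.Agent.Q150.LS
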